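import Pool.Agent.Helper14.SP3.Walk

/-!
# One short leg: a common base of several hubs at an inner vertex of the paths
-/

set_option autoImplicit false

namespace Pool.Agent.Helper14.SP

open Finset Classical
open Pool.Agent.Helper97.RE (IsPath Rich PP Clean Cb)

theorem wlast {V : Type} {n g : ℕ} (p : Fin (n + 1) → V) (h : 0 + g ≤ n) :
    Pool.Agent.Helper97.RE.win p 0 g h (Fin.last g) = p ⟨g, by omega⟩ := by
  rw [Pool.Agent.Helper97.RE.win_last]
  congr 1
  exact Fin.ext (Nat.zero_add g)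

open CBase in
/-- hubs at `v f`, and many `n`-paths from a vertex `X` at distance `g` from all of them, whose
ends lie in all the sets `W f` -/
theorem cut_base (F : Type) [Fintype F] (K g n E m : ℕ) (hK : 1 ≤ K) (hg : 1 ≤ g)
    (hm : 1 ≤ m) : ∃ E' : ℕ, ∀ R : ℕ → ℕ, ∃ E2 : ℕ, ∀ D N : ℕ, ∃ r d0 : ℕ,
    ∀ {V : Type} [Fintype V] [Nonempty V] (G : SimpleGraph V) (d : ℕ),
      (∀ w, d ≤ G.degree w ∧ G.degree w ≤ K * d) → d0 ≤ d → Rare G E' d (g + n) R →
      Fintype.card V * d ^ (g + n + 1) <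
        E * #{p ∈ PP G (g + n + 1) | Rich G (g + n + 1) r (p 0) (p (Fin.last (g + n + 1)))} →
      ∃ (X : V) (v : F → V) (b : F → Fin m → V) (W A : F → Finset V)
        (Q : Finset (Fin (n + 1) → V)),
        Function.Injective v ∧ (∀ f, v f ≠ X) ∧
        (∀ f, Hub G (g + n + 1) N D m (v f) (b f) (W f) (A f)) ∧
        (∀ q ∈ Q, IsPath G q ∧ q 0 = X ∧ Clean G (g + n) R q ∧ ∀ f, q (Fin.last n) ∈ W f) ∧
        d ^ n ≤ E2 * #Q := by
  obtain ⟨E1, hub1⟩ := hub K (g + n) (4 * E) m (by omega) hm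
  obtain ⟨E3, hE3⟩ : ∃ E3, E3 = 4 * E * K ^ (g + n + 1) * E1 := ⟨_, rfl⟩
  refine ⟨2 * E * ((g + n + 1) * (g + n + 1) * K ^ (g + n + 1) + K ^ (g + n + 1)) + 1, ?_⟩
  intro R
  obtain ⟨E4, d1, pick1⟩ := pick F (K ^ g) (K ^ n) (E3 * Cb R g)
  refine ⟨E4, ?_⟩
  intro D N
  obtain ⟨r, d2, hub2⟩ := hub1 (Cb R (g + n)) D N
  refine ⟨r, max (max d1 d2) 1, ?_⟩
  intro V _ _ G d hdeg hd0 hrare hmany
  have hd1 : d1 ≤ d := le_trans (le_trans (le_max_left _ _) (le_max_left _ _)) hd0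
  have hd2 : d2 ≤ d := le_trans (le_trans (le_max_right _ _) (le_max_left _ _)) hd0
  have hd3 : 1 ≤ d := le_trans (le_max_right _ _) hd0
  have hΔ : ∀ w, G.degree w ≤ K * d := fun w => (hdeg w).2
  have hs1 := sum_gv G R (g + n) r K d E hK hΔ ∅ _ rfl hrare (by simp) hmany
  have hs2 := many_v G R (g + n) r K d E hd3 hΔ ∅ hs1
  obtain ⟨V1, hV1⟩ : ∃ V1 : Finset V,
    V1 = ({v : V | d ^ (g + n + 1) ≤ 4 * E * gv G R (g + n) (g + n) r ∅ v} : Finset V) := ⟨_, rfl⟩
  rw [← hV1] at hs2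
  -- the hubs
  have hhub : ∀ v : V, ∃ (b : Fin m → V) (W A : Finset V), v ∈ V1 →
      Hub G (g + n + 1) N D m v b W A ∧
        d ^ (g + n) ≤ E1 * #{p ∈ Q G R (g + n) (g + n) ∅ v | p (Fin.last (g + n)) ∈ W} := by
    intro v
    by_cases hv : v ∈ V1
    · rw [hV1, mem_filter] at hv
      obtain ⟨b, W, A, hb1, hb2⟩ := hub2 G d hΔ hd2 v (Q G R (g + n) (g + n) ∅ v)
        (fun p hp => ⟨(mem_Q.1 hp).1, (mem_Q.1 hp).2.1⟩)
        (fun w => cnt_le' G (g + n) R (g + n) le_rfl v w _ (fun p hp => by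
          rw [mem_filter, mem_Q] at hp
          exact ⟨hp.1.1, hp.1.2.2.1, hp.1.2.1, hp.2⟩)) hv.2
      exact ⟨b, W, A, fun _ => ⟨hb1, hb2⟩⟩
    · exact ⟨fun _ => v, ∅, ∅, fun h => absurd h hv⟩
  choose b W A hH using hhub
  -- the set of pairs
  obtain ⟨T, hT⟩ : ∃ T : Finset (V × (Fin (g + n + 1) → V)), T = (V1 ×ˢ PP G (g + n)).filter
      (fun q => q.2 ∈ Q G R (g + n) (g + n) ∅ q.1 ∧ q.2 (Fin.last (g + n)) ∈ W q.1) := ⟨_, rfl⟩
  have hT1 : #V1 * d ^ (g + n) ≤ E1 * #T := by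
    rw [card_eq_sum_card_fiberwise (f := fun q : V × (Fin (g + n + 1) → V) => q.1) (s := T)
      (t := V1) (fun q hq => by
        rw [mem_coe, hT, mem_filter, mem_product] at hq
        exact mem_coe.2 hq.1.1), mul_sum]
    rw [← smul_eq_mul, ← sum_const]
    refine sum_le_sum fun v hv => ?_
    refine (hH v hv).2.trans (Nat.mul_le_mul_left _ ?_)
    refine card_le_card_of_injOn (fun p => (v, p)) ?_ ?_
    · intro p hp
      rw [mem_coe, mem_filter] at hp
      rw [mem_coe, mem_filter, hT, mem_filter, mem_product]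
      exact ⟨⟨⟨hv, Pool.Agent.Helper97.RE.mem_PP.2 (mem_Q.1 hp.1).1⟩, hp.1, hp.2⟩, rfl⟩
    · intro p _ p' _ hpp
      exact (Prod.mk.injEq _ _ _ _ ▸ hpp).2
  have hT2 : Fintype.card V * d ^ (g + n) ≤ E3 * #T := by
    calc Fintype.card V * d ^ (g + n) ≤ (4 * E * K ^ (g + n + 1) * #V1) * d ^ (g + n) :=
          Nat.mul_le_mul_right _ hs2
      _ = (4 * E * K ^ (g + n + 1)) * (#V1 * d ^ (g + n)) := by ring
      _ ≤ (4 * E * K ^ (g + n + 1)) * (E1 * #T) := Nat.mul_le_mul_left _ hT1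
      _ = E3 * #T := by rw [hE3]; ring
  -- pigeonhole on the vertex at position `g`
  have hx : ∃ x : V, d ^ (g + n) ≤ E3 * #{q ∈ T | q.2 ⟨g, by omega⟩ = x} := by
    by_contra hcon
    push Not at hcon
    have h1 : E3 * #T = ∑ x : V, E3 * #{q ∈ T | q.2 ⟨g, by omega⟩ = x} := by
      rw [card_eq_sum_card_fiberwise
        (f := fun q : V × (Fin (g + n + 1) → V) => q.2 ⟨g, by omega⟩) (s := T)
        (t := univ) (fun _ _ => mem_coe.2 (mem_univ _)), mul_sum]
    have h2 : ∑ x : V, E3 * #{q ∈ T | q.2 ⟨g, by omega⟩ = x} < ∑ _x : V, d ^ (g + n) :=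
      sum_lt_sum_of_nonempty univ_nonempty fun x _ => hcon x
    rw [sum_const, card_univ, smul_eq_mul] at h2
    omega
  obtain ⟨x, hx⟩ := hx
  -- the picked vertices
  obtain ⟨rel, hrel⟩ : ∃ rel : V → (Fin (n + 1) → V) → Prop, rel = fun v p =>
    v ∈ V1 ∧ p (Fin.last n) ∈ W v := ⟨_, rfl⟩
  obtain ⟨Ax, hAx⟩ : ∃ Ax : Finset V, Ax =
      ((PP G g).filter fun p => p (Fin.last g) = x).image (fun p => p 0) := ⟨_, rfl⟩
  obtain ⟨Px, hPx⟩ : ∃ Px : Finset (Fin (n + 1) → V), Px =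
      {q ∈ PP G n | q 0 = x ∧ Clean G (g + n) R q} := ⟨_, rfl⟩
  obtain ⟨a, ha1, ha2, ha3⟩ := pick1 Ax Px rel (d ^ g) (d ^ n)
    (hd1.trans (Nat.le_self_pow (by omega) d)) (by
      rw [← mul_pow, hAx]
      exact card_image_le.trans (Pool.Agent.Helper97.RE.card_paths_last G (K * d) hΔ g x))
    (by
      rw [← mul_pow]
      refine le_trans (card_le_card ?_) (CBase.card_paths_first G (K * d) hΔ n x)
      intro q hq
      rw [hPx, mem_filter] at hq
      rw [mem_filter]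
      exact ⟨hq.1, hq.2.1⟩)
    (by
      rw [← pow_add]
      refine hx.trans ?_
      rw [mul_assoc]
      refine Nat.mul_le_mul_left _ ?_
      refine card_le_mul_card_image_of_maps_to
        (f := fun q => (q.1, Pool.Agent.Helper97.RE.win q.2 g n le_rfl)) ?_ (Cb R g) ?_
      · intro q hq
        rw [mem_filter, hT, mem_filter, mem_product, mem_Q] at hq
        obtain ⟨⟨⟨hq1, hq2⟩, ⟨hq3, hq4, hq5, hq6⟩, hq7⟩, hq8⟩ := hq
        rw [mem_filter, mem_product]
        refine ⟨⟨?_, ?_⟩, ?_⟩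
        · rw [hAx, mem_image]
          refine ⟨Pool.Agent.Helper97.RE.win q.2 0 g (by omega), ?_, ?_⟩
          · rw [mem_filter]
            exact ⟨Pool.Agent.Helper97.RE.mem_PP.2 (hq3.win _ _ _), (wlast q.2 (by omega)).trans hq8⟩
          · exact hq4
        · rw [hPx, mem_filter]
          exact ⟨Pool.Agent.Helper97.RE.mem_PP.2 (hq3.win g n le_rfl), hq8, hq5.win g n le_rfl⟩
        · rw [hrel]
          exact ⟨hq1, hq7⟩
      · rintro ⟨v, q'⟩ _
        refine le_trans ?_ (Pool.Agent.Helper97.RE.cnt_le G (g + n) R g (by omega) v x)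
        unfold Pool.Agent.Helper97.RE.cnt
        refine card_le_card_of_injOn
          (fun q => Pool.Agent.Helper97.RE.win q.2 0 g (by omega)) ?_ ?_
        · intro q hq
          rw [mem_coe, mem_filter, mem_filter, hT, mem_filter, mem_product, mem_Q] at hq
          obtain ⟨⟨⟨⟨hq1, hq2⟩, ⟨hq3, hq4, hq5, hq6⟩, hq7⟩, hq8⟩, hq9⟩ := hq
          rw [mem_coe, mem_filter]
          exact ⟨Pool.Agent.Helper97.RE.mem_PP.2 (hq3.win _ _ _), hq5.win _ _ _,
            hq4.trans (congrArg Prod.fst hq9), (wlast q.2 (by omega)).trans hq8⟩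
        · intro q hq q1 hq1 hqq
          rw [mem_coe, mem_filter] at hq hq1
          have e1 : q.1 = q1.1 := (congrArg Prod.fst hq.2).trans (congrArg Prod.fst hq1.2).symm
          have e2 : Pool.Agent.Helper97.RE.win q.2 g n le_rfl =
            Pool.Agent.Helper97.RE.win q1.2 g n le_rfl :=
            (congrArg Prod.snd hq.2).trans (congrArg Prod.snd hq1.2).symm
          refine Prod.ext e1 ?_
          funext i
          rcases Nat.lt_or_ge (i : ℕ) g with hlt | hge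
          · have h1 := congrFun hqq ⟨i, by omega⟩
            simp only [Pool.Agent.Helper97.RE.win_apply, zero_add] at h1
            exact h1
          · have h1 := congrFun e2 ⟨i - g, by omega⟩
            rw [Pool.Agent.Helper97.RE.win_apply, Pool.Agent.Helper97.RE.win_apply] at h1
            have h2 : (⟨g + (i - g), by omega⟩ : Fin (g + n + 1)) = i :=
              Fin.ext (by simp only; omega)
            rw [h2] at h1
            exact h1)
    (Nat.one_le_pow _ _ hd3)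
  obtain ⟨Qx, hQx⟩ : ∃ Qx : Finset (Fin (n + 1) → V), Qx = {p ∈ Px | ∀ i, rel (a i) p} := ⟨_, rfl⟩
  have hQcard : d ^ n ≤ E4 * #Qx := by
    rw [hQx]
    convert ha3
  refine ⟨x, a, fun f => b (a f), fun f => W (a f), fun f => A (a f), Qx, ha1, ?_, ?_, ?_, hQcard⟩
  · intro f hf
    have h1 := ha2 f
    rw [hAx, mem_image] at h1
    obtain ⟨p, hp, hp0⟩ := h1
    rw [mem_filter, Pool.Agent.Helper97.RE.mem_PP] at hp
    have h2 : p 0 = p (Fin.last g) := by
      rw [hp0, hp.2, hf]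
    have h3 := congrArg Fin.val (hp.1.1 h2)
    simp only [Fin.val_zero, Fin.val_last] at h3
    omega
  · intro f
    have hne : Qx.Nonempty := by
      rw [← card_pos]
      rcases Nat.eq_zero_or_pos #Qx with h0 | h0
      · rw [h0, mul_zero] at hQcard
        have := Nat.one_le_pow n d hd3
        omega
      · exact h0
    obtain ⟨p, hp⟩ := hne
    rw [hQx, mem_filter] at hp
    have h1 := hp.2 f
    rw [hrel] at h1
    exact (hH (a f) h1.1).1
  · intro q hq
    rw [hQx, mem_filter, hPx, mem_filter] at hq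
    refine ⟨Pool.Agent.Helper97.RE.mem_PP.1 hq.1.1, hq.1.2.1, hq.1.2.2, fun f => ?_⟩
    have h1 := hq.2 f
    rw [hrel] at h1
    exact h1.2

end Pool.Agent.Helper14.SP
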