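import Pool.Agent.Helper14.SP3.One
import Pool.Agent.Helper14.SP2.F.Main

/-!
# One short leg: induction over the worlds
-/

set_option autoImplicit false

namespace Pool.Agent.Helper14.SP

open Finset Classical
open Pool.Agent.Helper97.RE (IsPath Rich PP Clean Cb)
open Pool.Agent.Helper55.JS (BV pt blow RG.regularize)

section worlds

variable {ι : Type} [Fintype ι] [Nonempty ι]

omit [Nonempty ι] in
theorem world_one (j : ι → ℕ) (N0 K l : ℕ) (hK : 1 ≤ K) (c0 : ι) (hc0 : j c0 < l)
    (huniq : ∀ c, j c < l → c = c0) (h2 : 2 ≤ j c0) (hne : ∃ c, ¬ j c < l) : World j N0 K l := by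
  obtain ⟨c1, hc1⟩ := hne
  have hn2 : Nonempty {c // ¬ j c < l} := ⟨⟨c1, hc1⟩⟩
  have hw : World (Sum.elim (fun _ : Unit => j c0) (fun c : {c // ¬ j c < l} => j c)) N0 K l := by
    rcases Nat.lt_or_ge l (j c0 + 2) with hlt | hge
    · obtain ⟨h, hh⟩ : ∃ h, j c0 = h + 1 := ⟨j c0 - 1, by omega⟩
      obtain rfl : l = 1 + h + 1 := by omega
      rw [hh]
      exact world_near h (by omega) (fun c : {c // ¬ j c < 1 + h + 1} => j c)
        (fun f => by have := f.2; omega) N0 K hK
    · obtain ⟨g, hg⟩ : ∃ g, l = g + j c0 + 1 := ⟨l - 1 - j c0, by omega⟩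
      have hw2 := world_far (j c0) g (by omega) (by omega) (fun c : {c // ¬ j c < l} => j c)
        (fun f => by have := f.2; omega) N0 K hK
      rw [← hg] at hw2
      exact hw2
  have hun : Unique {c // j c < l} := ⟨⟨⟨c0, hc0⟩⟩, fun c => Subtype.ext (huniq c.1 c.2)⟩
  have hw' := hw.congr ((Equiv.sumCompl (fun c => j c < l)).symm.trans
    (Equiv.sumCongr (Equiv.ofUnique {c // j c < l} Unit) (Equiv.refl {c // ¬ j c < l})))
  have he : (fun c => Sum.elim (fun _ : Unit => j c0) (fun c : {c // ¬ j c < l} => j c)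
      (((Equiv.sumCompl (fun c => j c < l)).symm.trans
        (Equiv.sumCongr (Equiv.ofUnique {c // j c < l} Unit)
          (Equiv.refl {c // ¬ j c < l}))) c)) = j := by
    funext c
    obtain ⟨x, rfl⟩ := (Equiv.sumCompl (fun c => j c < l)).surjective c
    rw [Equiv.trans_apply, Equiv.symm_apply_apply]
    rcases x with x | x
    · change j c0 = j x.1
      rw [huniq x.1 x.2]
    · rfl
  rw [he] at hw'
  exact hw'

theorem world_all2 (j : ι → ℕ) (k N0 K : ℕ) (hK : 1 ≤ K) (hj : ∀ c, 2 ≤ j c ∧ j c ≤ k)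
    (hb : (Fintype.card ι - 1) * k < ∑ c, j c)
    (hcond : ∀ l, 2 ≤ l → l < k → 2 ≤ #{c | j c < l} →
      (∑ c, j c) * #{c | j c < l} ≤
        (Fintype.card ι - 1) * (l - 2 + ∑ c with j c < l, j c))
    (hk' : ∃ c, j c = k) (l : ℕ) (hl : 2 ≤ l) (hlk : l ≤ k) : World j N0 K l := by
  by_cases h0 : ∀ c, l ≤ j c
  · exact world_zero j N0 K l hK hl h0
  push Not at h0
  obtain ⟨c0, hc0⟩ := h0
  obtain ⟨c1, hc1⟩ := hk'
  have hn1 : Nonempty {c // j c < l} := ⟨⟨c0, hc0⟩⟩
  have hn2 : Nonempty {c // ¬ j c < l} := ⟨⟨c1, by omega⟩⟩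
  have hs1 : 1 ≤ Fintype.card {c // j c < l} := Fintype.card_pos
  have hs2 : 1 ≤ Fintype.card {c // ¬ j c < l} := Fintype.card_pos
  have hsum := sum_compl j (fun c => j c < l)
  have hcard := card_compl (ι := ι) (fun c => j c < l)
  have hq : #{c | j c < l} = Fintype.card {c // j c < l} := by
    rw [Fintype.card_subtype]
  have hS : ∑ c with j c < l, j c = ∑ c : {c // j c < l}, j c := by
    rw [← Finset.sum_subtype_eq_sum_filter]
    simp
  rcases Nat.lt_or_ge l k with hlt | hge
  · -- l < k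
    rcases Nat.lt_or_ge #{c | j c < l} 2 with hq1 | hq2
    · -- one shorter leg
      refine world_one j N0 K l hK c0 hc0 (fun c hc => ?_) (hj c0).1 ⟨c1, by omega⟩
      by_contra hne
      have h1 : ({c, c0} : Finset ι) ⊆ ({c | j c < l} : Finset ι) := by
        intro x hx
        rw [mem_insert, mem_singleton] at hx
        rw [mem_filter]
        rcases hx with rfl | rfl
        · exact ⟨mem_univ _, hc⟩
        · exact ⟨mem_univ _, hc0⟩
      have h2 := card_le_card h1
      rw [card_pair hne] at h2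
      omega
    · have hc := hcond l hl hlt hq2
      rw [hq, hS] at hc
      have hl3 : 3 ≤ l := by
        have := (hj c0).1
        omega
      obtain ⟨h, rfl⟩ : ∃ h, l = h + 2 := ⟨l - 2, by omega⟩
      have hw := world_mid (ι := {c // j c < h + 2}) (F := {c // ¬ j c < h + 2})
        (fun c => j c) (fun c => j c) N0 K h hK (by omega) (fun c => by have := (hj c.1).1; omega)
        (fun c => c.2) (fun c => not_lt.1 c.2) (by
          rw [← hsum, ← hcard]
          exact hc)
      have hw' := hw.congr (Equiv.sumCompl (fun c => j c < h + 2)).symm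
      have he := elim_compl j (fun c => j c < h + 2) (fun c => j c) (fun c => rfl)
      rw [he] at hw'
      exact hw'
  · -- l = k
    obtain rfl : l = k := by omega
    have hF : ∀ c : {c // ¬ j c < l}, j c = l := fun c => by
      have := (hj c.1).2; have := c.2; omega
    have hT : (Fintype.card {c // j c < l} - 1) * l + 1 ≤ ∑ c : {c // j c < l}, j c := by
      have h1 : ∑ c : {c // ¬ j c < l}, j c = Fintype.card {c // ¬ j c < l} * l := by
        rw [sum_congr rfl fun c _ => hF c]; simp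
      rw [h1] at hsum
      have h2 : (Fintype.card ι - 1) * l =
          (Fintype.card {c // j c < l} - 1) * l + Fintype.card {c // ¬ j c < l} * l := by
        rw [← Nat.add_mul]
        congr 1
        omega
      omega
    have hw := world_k (ι := {c // j c < l}) (F := {c // ¬ j c < l}) (fun c => j c) l N0 K hK
      (fun c => by have := (hj c.1).1; omega) (fun c => c.2) hl hT
    have hw' := hw.congr (Equiv.sumCompl (fun c => j c < l)).symm
    have he := elim_compl j (fun c => j c < l) (fun _ => l) (fun c => (hF c).symm)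
    rw [he] at hw'
    exact hw'

end worlds

/-- Janzer's bound; a numerical condition is only needed where at least two legs are shorter
than `l` -/
theorem spider2 (s t k : ℕ) (hs : 2 ≤ s) (hk : 2 ≤ k) (j : Fin s → ℕ)
    (hj : ∀ c, 2 ≤ j c ∧ j c ≤ k) (hk' : ∃ c, j c = k) (hb : (s - 1) * k < ∑ c, j c)
    (hcond : ∀ l, 2 ≤ l → l < k → 2 ≤ #{c | j c < l} →
      (∑ c, j c) * #{c | j c < l} ≤ (s - 1) * (l - 2 + ∑ c with j c < l, j c)) :
    ∃ C : ℝ, ∀ n : ℕ, (SimpleGraph.extremalNumber n (blow s t j) : ℝ) ≤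
      C * (n : ℝ) ^ (1 + ((s - 1 : ℕ) : ℝ) / ((∑ c, j c : ℕ) : ℝ)) := by
  have : Nonempty (Fin s) := ⟨⟨0, by omega⟩⟩
  refine extremal_of_flex s t hs j (fun c => by have := (hj c).1; omega) ?_
  intro K N0 hK
  obtain ⟨A, hA⟩ := main_flex j k N0 K (fun c => ⟨by have := (hj c).1; omega, (hj c).2⟩) hk
    (fun l hl hlk => world_all2 j k N0 K hK hj
      (by rw [Fintype.card_fin]; exact hb) (by rw [Fintype.card_fin]; exact hcond) hk' l hl hlk)
  rw [Fintype.card_fin] at hA
  exact ⟨A, hA⟩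

/-- all spiders with at most one leg shorter than `k - 1` -/
theorem spider_one (s t k : ℕ) (hs : 2 ≤ s) (hk : 2 ≤ k) (j : Fin s → ℕ)
    (hj : ∀ c, 2 ≤ j c ∧ j c ≤ k) (hk' : ∃ c, j c = k) (hb : (s - 1) * k < ∑ c, j c)
    (h1 : ∀ c c', c ≠ c' → k - 1 ≤ j c ∨ k - 1 ≤ j c') :
    ∃ C : ℝ, ∀ n : ℕ, (SimpleGraph.extremalNumber n (blow s t j) : ℝ) ≤
      C * (n : ℝ) ^ (1 + ((s - 1 : ℕ) : ℝ) / ((∑ c, j c : ℕ) : ℝ)) := by
  refine spider2 s t k hs hk j hj hk' hb ?_
  intro l _ hl2 hq
  exfalso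
  obtain ⟨c, hc, c', hc', hne⟩ := one_lt_card.1 (show 1 < #{c | j c < l} by omega)
  rw [mem_filter] at hc hc'
  rcases h1 c c' hne with h | h <;> omega

end Pool.Agent.Helper14.SP
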