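import Pool.Agent.Helper14.SP3.Cut

/-!
# One short leg: the worlds `l` with exactly one leg shorter than `l`
-/

set_option autoImplicit false

namespace Pool.Agent.Helper14.SP

open Finset Classical
open Pool.Agent.Helper97.RE (IsPath Rich PP Clean Cb)

/-- choosing distinct roots off a small set -/
theorem roots2 {F V : Type} [Fintype F] (m : ℕ) (v : F → V)
    (hv : Function.Injective v) (b : F → Fin m → V) (hb : ∀ f, Function.Injective (b f))
    (P : F → Prop) (B : Finset V) (hm : 2 * Fintype.card F + #B ≤ m) (hvB : ∀ f, v f ∉ B) :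
    ∃ z : F → V, Function.Injective z ∧ (∀ f, z f ∉ B) ∧ ∀ f,
      (P f → ∃ i, z f = b f i) ∧ (¬ P f → z f = v f) := by
  set S : F → Finset V := fun f => if P f then (univ.image (b f)) \ (univ.image v ∪ B) else {v f}
    with hS
  have hall : ∀ s : Finset F, #s ≤ #(s.biUnion S) := by
    intro s
    by_cases hs : ∃ f ∈ s, P f
    · obtain ⟨f, hf, hPf⟩ := hs
      have h1 : S f ⊆ s.biUnion S := subset_biUnion_of_mem S hf
      have h2 : Fintype.card F ≤ #(S f) := by
        simp only [hS, if_pos hPf]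
        have h3 := le_card_sdiff (univ.image v ∪ B) (univ.image (b f))
        rw [card_image_of_injective _ (hb f), card_fin] at h3
        have h4 : #(univ.image v) ≤ Fintype.card F := card_image_le
        have h5 := card_union_le (univ.image v) B
        omega
      exact (card_le_univ s).trans (h2.trans (card_le_card h1))
    · push Not at hs
      have h1 : s.biUnion S = s.image v := by
        ext x
        simp only [mem_biUnion, mem_image]
        constructor
        · rintro ⟨f, hf, hx⟩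
          simp only [hS, if_neg (hs f hf), mem_singleton] at hx
          exact ⟨f, hf, hx.symm⟩
        · rintro ⟨f, hf, hx⟩
          refine ⟨f, hf, ?_⟩
          simp only [hS, if_neg (hs f hf), mem_singleton]
          exact hx.symm
      rw [h1, card_image_of_injective _ hv]
  obtain ⟨z, hz, hzS⟩ := (all_card_le_biUnion_card_iff_exists_injective S).1 hall
  refine ⟨z, hz, fun f => ?_, fun f => ⟨fun hf => ?_, fun hf => ?_⟩⟩
  · have h1 := hzS f
    by_cases hf : P f
    · simp only [hS, if_pos hf, mem_sdiff, mem_union, not_or] at h1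
      exact h1.2.2
    · simp only [hS, if_neg hf, mem_singleton] at h1
      rw [h1]
      exact hvB f
  · have h1 := hzS f
    simp only [hS, if_pos hf, mem_sdiff, mem_image, mem_univ, true_and] at h1
    obtain ⟨⟨i, hi⟩, _⟩ := h1
    exact ⟨i, hi.symm⟩
  · have h1 := hzS f
    simp only [hS, if_neg hf, mem_singleton] at h1
    exact h1

/-- the common vertices of the hubs are rich to all the roots of the long legs -/
theorem hub_rich_roots {F V : Type} [Fintype F] {G : SimpleGraph V} {l Ne N D m : ℕ} (hl : 1 ≤ l)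
    (J : F → ℕ) (hJ : ∀ f, l ≤ J f) (v : F → V) (b : F → Fin m → V) (W A : F → Finset V)
    (hub : ∀ f, Hub G l N D m (v f) (b f) (W f) (A f)) (hD : Ne + ∑ f, J f + 4 ≤ D) (hDN : D ≤ N)
    (hm : D ≤ m) (z : F → V) (hz : ∀ f, (Even (J f - l) → ∃ i, z f = b f i) ∧
      (¬ Even (J f - l) → z f = v f)) (u : V) (hu : ∀ f, u ∈ W f) (huz : ∀ f, u ≠ z f) (f : F) :
    Rich G (J f) Ne u (z f) := by
  have hJf : J f ≤ ∑ f, J f := single_le_sum (f := J) (fun _ _ => Nat.zero_le _) (mem_univ f)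
  have hJf2 := hJ f
  have huz' := huz f
  by_cases hp : Even (J f - l)
  · obtain ⟨i, hi⟩ := (hz f).1 hp
    rw [hi]
    refine (hub f).rich_b (by omega) (J f) Ne hJf2 (by omega) (by omega) i u ?_
      (fun _ => hu f) (fun hc => absurd hp hc)
    rw [← hi]
    exact huz'
  · have h1 := (hz f).2 hp
    rw [h1]
    have hodd : ¬ Even (J f - l) := hp
    have hgt : l + 1 ≤ J f := by
      by_contra hlt
      have : J f - l = 0 := by omega
      rw [this] at hodd
      exact hodd (by decide)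
    have hev : Even (J f - (l + 1)) := by
      have : J f - l = (J f - (l + 1)) + 1 := by omega
      rw [this, Nat.even_add_one, not_not] at hodd
      exact hodd
    refine (hub f).rich_v (by omega) (J f) Ne hgt (by omega) (by omega) (by omega) u ?_
      (fun _ => hu f) (fun hc => absurd hev hc)
    rw [← h1]
    exact huz'

/-- one short leg -/
theorem flex_one {F V : Type} [Fintype F] (G : SimpleGraph V) (a : ℕ) (ha : 1 ≤ a) (J : F → ℕ)
    (hJ : ∀ f, 1 ≤ J f) (N0 Ne : ℕ) (hNe : N0 + (a + 2) + ∑ f, (J f + 2) + 1 ≤ Ne) (z : F → V)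
    (hz : Function.Injective z) (C Y : Finset V) (hY : ∀ f, z f ∈ Y) (y : V) (hy : y ∉ Y)
    (hC : ∀ u ∈ C, ∀ f, Rich G (J f) Ne u (z f)) (hflex : FlexV G a N0 C Y y) :
    Flex G (Sum.elim (fun _ : Unit => a) J) N0 (Sum.elim (fun _ => y) z) := by
  refine flex_of_short G (fun _ : Unit => a) J (fun _ => ha) hJ (fun _ => y) z Y hY (fun _ => hy)
    N0 ?_
  intro Z hZ hyZ
  obtain ⟨p, hp, hp0, hpl, hpi⟩ := hflex Z hZ (hyZ ())
  obtain ⟨x, hx⟩ : ∃ x : Obj Unit V, x = (p 0, fun _ m => p ⟨min m a, by omega⟩) := ⟨_, rfl⟩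
  have hxe : ∀ c m (hm : m ≤ a), x.2 c m = p ⟨m, by omega⟩ := by
    intro c m hm
    rw [hx]
    change p ⟨min m a, by omega⟩ = _
    congr 1
    exact Fin.ext (min_eq_left hm)
  have hx1 : x.1 = p 0 := by rw [hx]
  have hoff : ∀ m (hm : m < a), p ⟨m, by omega⟩ ∉ Z ∧ p ⟨m, by omega⟩ ∉ Y := by
    intro m hm
    have h1 := hpi ⟨m, by omega⟩ (by
      intro he
      have := congrArg Fin.val he
      simp only [Fin.val_last] at this
      omega)
    rw [mem_union, not_or] at h1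
    exact h1
  have hsp : Sp G (fun _ : Unit => a) x := by
    refine ⟨fun c => ?_, fun c m hm => ?_, fun c c' m m' h1 h2 h3 he => ⟨rfl, ?_⟩⟩
    · rw [hxe c 0 (Nat.zero_le _), hx1]
      rfl
    · rw [hxe c m (le_of_lt hm), hxe c (m + 1) hm]
      exact hp.adj m hm
    · rw [hxe c m h2, hxe c' m' h3] at he
      exact congrArg Fin.val (hp.1 he)
  refine ⟨x, hsp, fun c => ?_, ?_, ?_, fun c m h1 h2 => ?_, ?_⟩
  · rw [hxe c a le_rfl, ← hpl]
    rfl
  · rw [hx1]
    exact (hoff 0 (by omega)).1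
  · rw [hx1]
    exact (hoff 0 (by omega)).2
  · rw [hxe c m (le_of_lt h2)]
    exact hoff m h2
  · refine ext_of_rich G J hJ z hz x.1 (Z ∪ vs (fun _ : Unit => a) x) Ne ?_ ?_
    · have h1 := card_union_le Z (vs (fun _ : Unit => a) x)
      have h2 := card_vs_le (fun _ : Unit => a) x
      simp only [univ_unique, sum_singleton] at h2
      omega
    · rw [hx1]
      exact hC _ hp0

/-- few paths from `X` meet a small set -/
theorem card_hit_first {V : Type} [Fintype V] (G : SimpleGraph V) (Δ : ℕ)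
    (hΔ : ∀ w, G.degree w ≤ Δ) (X : V) (B : Finset V) (n : ℕ) :
    #{q ∈ PP G n | q 0 = X ∧ ∃ i, i ≠ 0 ∧ q i ∈ B} ≤ n * #B * Δ ^ (n - 1) := by
  induction n with
  | zero =>
    rw [Nat.zero_mul, Nat.zero_mul, Nat.le_zero, card_eq_zero, filter_eq_empty_iff]
    rintro q _ ⟨_, i, hi, _⟩
    exact hi (Fin.ext (by have := i.2; simp only [Fin.val_zero]; omega))
  | succ n ih =>
    have h1 : ({q ∈ PP G (n + 1) | q 0 = X ∧ ∃ i, i ≠ 0 ∧ q i ∈ B} :
        Finset (Fin (n + 1 + 1) → V)) ⊆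
        {q ∈ PP G (n + 1) | (Fin.init q : Fin (n + 1) → V) ∈
          ({q ∈ PP G n | q 0 = X ∧ ∃ i, i ≠ 0 ∧ q i ∈ B} : Finset (Fin (n + 1) → V))} ∪
        {q ∈ PP G (n + 1) | q 0 = X ∧ q (Fin.last (n + 1)) ∈ B} := by
      intro q hq
      rw [mem_filter] at hq
      obtain ⟨hq1, hq2, i, hi, hiB⟩ := hq
      rw [mem_union, mem_filter, mem_filter, mem_filter]
      have hq1' := Pool.Agent.Helper97.RE.mem_PP.1 hq1
      by_cases hil : i = Fin.last (n + 1)
      · right
        rw [hil] at hiB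
        exact ⟨hq1, hq2, hiB⟩
      · left
        obtain ⟨i', rfl⟩ := Fin.exists_castSucc_eq.2 hil
        refine ⟨hq1, Pool.Agent.Helper97.RE.mem_PP.2 hq1'.init, hq2, i', ?_, hiB⟩
        rintro rfl
        exact hi rfl
    have h2 := Pool.Agent.Helper97.RE.card_ext_last G Δ hΔ n
      ({q ∈ PP G n | q 0 = X ∧ ∃ i, i ≠ 0 ∧ q i ∈ B} : Finset (Fin (n + 1) → V))
    have h3 : #{q ∈ PP G (n + 1) | q 0 = X ∧ q (Fin.last (n + 1)) ∈ B} ≤ #B * Δ ^ n := by
      have h4 : #{q ∈ PP G (n + 1) | q 0 = X ∧ q (Fin.last (n + 1)) ∈ B} ≤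
          #(({q ∈ PP G n | q 0 = X} : Finset (Fin (n + 1) → V)) ×ˢ B) := by
        refine card_le_card_of_injOn
          (fun q => ((Fin.init q : Fin (n + 1) → V), q (Fin.last (n + 1)))) ?_ ?_
        · intro q hq
          rw [mem_coe, mem_filter] at hq
          rw [mem_coe, mem_product, mem_filter]
          exact ⟨⟨Pool.Agent.Helper97.RE.mem_PP.2
            (Pool.Agent.Helper97.RE.mem_PP.1 hq.1).init, hq.2.1⟩, hq.2.2⟩
        · intro q _ q' _ hqq
          simp only [Prod.mk.injEq] at hqq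
          rw [← Fin.snoc_init_self q, ← Fin.snoc_init_self q', hqq.1, hqq.2]
      rw [card_product, mul_comm] at h4
      exact h4.trans (Nat.mul_le_mul_left _ (CBase.card_paths_first G Δ hΔ n X))
    refine (card_le_card h1).trans ((card_union_le _ _).trans ?_)
    refine (Nat.add_le_add (h2.trans (Nat.mul_le_mul_left _ ih)) h3).trans ?_
    rw [Nat.add_sub_cancel]
    rcases Nat.eq_zero_or_pos n with h0 | h0
    · subst h0
      simp
    · obtain ⟨n', rfl⟩ : ∃ n', n = n' + 1 := ⟨n - 1, by omega⟩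
      rw [Nat.add_sub_cancel]
      exact le_of_eq (by ring)

/-- exactly one leg shorter than `l`, of length at most `l - 2` -/
theorem world_far {F : Type} [Fintype F] (a g : ℕ) (ha : 1 ≤ a) (hg : 1 ≤ g)
    (J : F → ℕ) (hJ : ∀ f, g + a + 1 ≤ J f) (N0 K : ℕ) (hK : 1 ≤ K) :
    World (Sum.elim (fun _ : Unit => a) J) N0 K (g + a + 1) := by
  intro E
  obtain ⟨Ne, hNe⟩ : ∃ Ne, Ne = N0 + (a + 2) + ∑ f, (J f + 2) + 1 := ⟨_, rfl⟩
  obtain ⟨D, hD⟩ : ∃ D, D = Ne + ∑ f, J f + 4 := ⟨_, rfl⟩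
  obtain ⟨m, hm⟩ : ∃ m, m = D + 2 * Fintype.card F + 1 := ⟨_, rfl⟩
  obtain ⟨E', hE'⟩ := cut_base F K g a E m hK hg (by omega)
  refine ⟨E', fun R => ?_⟩
  obtain ⟨E2, hE2⟩ := hE' R
  obtain ⟨r, d0, hbase⟩ := hE2 D D
  obtain ⟨dd, hdd⟩ : ∃ dd, dd = d0 + E2 * (a * (N0 + Fintype.card F) * K ^ (a - 1)) + 1 := ⟨_, rfl⟩
  refine ⟨r, dd ^ (∑ c, Sum.elim (fun _ : Unit => a) J c), ?_⟩
  intro V _ _ G d hdeg hA hrare hmany
  have hn1 : 1 ≤ Fintype.card V := Fintype.card_pos
  have hsum : ∑ c, Sum.elim (fun _ : Unit => a) J c ≠ 0 := by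
    rw [Fintype.sum_sum_type]
    simp only [Sum.elim_inl, univ_unique, sum_singleton]
    omega
  have hd : dd ≤ d := by
    have h1 : dd ^ (∑ c, Sum.elim (fun _ : Unit => a) J c) ≤
        d ^ (∑ c, Sum.elim (fun _ : Unit => a) J c) :=
      (Nat.le_mul_of_pos_right _ (Nat.pow_pos hn1)).trans hA
    exact (Nat.pow_le_pow_iff_left hsum).1 h1
  obtain ⟨X, v, b, W, A, Q, hvinj, hvX, hub, hQ, hQcard⟩ :=
    hbase G d hdeg (by omega) hrare hmany
  obtain ⟨z, hz, hzX, hz'⟩ := roots2 m v hvinj b (fun f => (hub f).inj)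
    (fun f => Even (J f - (g + a + 1))) {X} (by rw [card_singleton]; omega)
    (fun f => by rw [mem_singleton]; exact hvX f)
  obtain ⟨Y, hY⟩ : ∃ Y : Finset V, Y = univ.image z := ⟨_, rfl⟩
  have hYcard : #Y ≤ Fintype.card F := by
    rw [hY]
    exact card_image_le
  have hXY : X ∉ Y := by
    rw [hY, mem_image]
    rintro ⟨f, _, hf⟩
    exact hzX f (by rw [hf]; exact mem_singleton_self _)
  obtain ⟨C, hC⟩ : ∃ C : Finset V, C = (univ : Finset V).filter fun u => (∀ f, u ∈ W f) ∧ u ∉ Y :=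
    ⟨_, rfl⟩
  refine ⟨_, flex_one G a ha J (fun f => by have := hJ f; omega) N0 Ne (by omega) z hz C Y
    (fun f => by rw [hY]; exact mem_image_of_mem _ (mem_univ f)) X hXY ?_ ?_⟩
  · intro u hu f
    rw [hC, mem_filter] at hu
    refine hub_rich_roots (by omega) J hJ v b W A hub (by omega) le_rfl (by omega) z hz' u hu.2.1
      ?_ f
    intro f' he
    refine hu.2.2 ?_
    rw [hY, he]
    exact mem_image_of_mem _ (mem_univ f')
  · intro Z hZ hXZ
    -- a path of `Q` off `Z` and `Y`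
    obtain ⟨q, hq, hqi⟩ : ∃ q ∈ Q, ∀ i, i ≠ 0 → q i ∉ Z ∪ Y := by
      by_contra hcon
      push Not at hcon
      have h1 : Q ⊆ ({q ∈ PP G a | q 0 = X ∧ ∃ i, i ≠ 0 ∧ q i ∈ Z ∪ Y} :
          Finset (Fin (a + 1) → V)) := by
        intro q hq
        rw [mem_filter]
        obtain ⟨i, hi, hiB⟩ := hcon q hq
        exact ⟨Pool.Agent.Helper97.RE.mem_PP.2 (hQ q hq).1, (hQ q hq).2.1, i, hi, hiB⟩
      have h2 := (card_le_card h1).trans
        (card_hit_first G (K * d) (fun w => (hdeg w).2) X (Z ∪ Y) a)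
      have h3 : #(Z ∪ Y) ≤ N0 + Fintype.card F := (card_union_le _ _).trans (by omega)
      have h4 : d ^ a ≤ E2 * (a * (N0 + Fintype.card F) * (K * d) ^ (a - 1)) := by
        refine hQcard.trans (Nat.mul_le_mul_left _ (h2.trans ?_))
        exact Nat.mul_le_mul_right _ (Nat.mul_le_mul_left _ h3)
      obtain ⟨a', rfl⟩ : ∃ a', a = a' + 1 := ⟨a - 1, by omega⟩
      rw [Nat.add_sub_cancel] at h4 hdd
      have h5 : d ^ (a' + 1) = d * d ^ a' := by ring
      have h6 : E2 * ((a' + 1) * (N0 + Fintype.card F) * (K * d) ^ a') =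
          (E2 * ((a' + 1) * (N0 + Fintype.card F) * K ^ a')) * d ^ a' := by
        rw [mul_pow]; ring
      rw [h5, h6] at h4
      have h7 := Nat.le_of_mul_le_mul_right h4 (Nat.pow_pos (by omega))
      omega
    obtain ⟨hq1, hq2, hq3, hq4⟩ := hQ q hq
    refine ⟨fun i => q (Fin.rev i), ⟨?_, ?_⟩, ?_, ?_, ?_⟩
    · intro i i' hii
      exact Fin.rev_injective (hq1.1 hii)
    · intro i
      have h3 := (hq1.2 (Fin.rev i)).symm
      change G.Adj (q (Fin.rev i.castSucc)) (q (Fin.rev i.succ))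
      rw [Fin.rev_castSucc, Fin.rev_succ]
      exact h3
    · change q (Fin.rev 0) ∈ C
      rw [Fin.rev_zero, hC, mem_filter]
      refine ⟨mem_univ _, hq4, fun h1 => hqi (Fin.last a) ?_ (mem_union_right _ h1)⟩
      intro he
      have := congrArg Fin.val he
      simp only [Fin.val_last, Fin.val_zero] at this
      omega
    · change q (Fin.rev (Fin.last a)) = X
      rw [Fin.rev_last]
      exact hq2
    · intro i hi
      refine hqi _ ?_
      intro he
      apply hi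
      rw [← Fin.rev_rev i, he, Fin.rev_zero]

/-- exactly one leg shorter than `l`, of length `l - 1 ≥ 2` -/
theorem world_near {F : Type} [Fintype F] [Nonempty F] (h : ℕ) (hh : 1 ≤ h)
    (J : F → ℕ) (hJ : ∀ f, 1 + h + 1 ≤ J f) (N0 K : ℕ) (hK : 1 ≤ K) :
    World (Sum.elim (fun _ : Unit => h + 1) J) N0 K (1 + h + 1) := by
  intro E
  obtain ⟨Ne, hNe⟩ : ∃ Ne, Ne = N0 + (h + 1 + 2) + ∑ f, (J f + 2) + 1 := ⟨_, rfl⟩
  obtain ⟨D, hD⟩ : ∃ D, D = Ne + ∑ f, J f + 4 := ⟨_, rfl⟩
  obtain ⟨m, hm⟩ : ∃ m, m = D + 2 * Fintype.card F + 1 := ⟨_, rfl⟩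
  obtain ⟨E', hE'⟩ := cut_base F K 1 h E m hK le_rfl (by omega)
  refine ⟨E', fun R => ?_⟩
  obtain ⟨E2, hE2⟩ := hE' R
  obtain ⟨rk, hkey⟩ := key K h (2 * (E2 * Cb R h)) N0 (Fintype.card F) hh
  obtain ⟨r, d0, hbase⟩ := hE2 D (D + rk)
  obtain ⟨dd, hdd⟩ : ∃ dd, dd = d0 + 2 * (E2 * Cb R h) * Fintype.card F + 1 := ⟨_, rfl⟩
  refine ⟨r, dd ^ (∑ c, Sum.elim (fun _ : Unit => h + 1) J c), ?_⟩
  intro V _ _ G d hdeg hA hrare hmany
  have hn1 : 1 ≤ Fintype.card V := Fintype.card_pos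
  have hsum : ∑ c, Sum.elim (fun _ : Unit => h + 1) J c ≠ 0 := by
    rw [Fintype.sum_sum_type]
    simp only [Sum.elim_inl, univ_unique, sum_singleton]
    omega
  have hd : dd ≤ d := by
    have h1 : dd ^ (∑ c, Sum.elim (fun _ : Unit => h + 1) J c) ≤
        d ^ (∑ c, Sum.elim (fun _ : Unit => h + 1) J c) :=
      (Nat.le_mul_of_pos_right _ (Nat.pow_pos hn1)).trans hA
    exact (Nat.pow_le_pow_iff_left hsum).1 h1
  obtain ⟨X, v, b, W, A, Q, hvinj, hvX, hub, hQ, hQcard⟩ :=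
    hbase G d hdeg (by omega) hrare hmany
  obtain ⟨z, hz, _, hz'⟩ := roots2 m v hvinj b (fun f => (hub f).inj)
    (fun f => Even (J f - (1 + h + 1))) ∅ (by rw [card_empty]; omega) (by simp)
  obtain ⟨Y, hY⟩ : ∃ Y : Finset V, Y = univ.image z := ⟨_, rfl⟩
  have hYcard : #Y ≤ Fintype.card F := by
    rw [hY]
    exact card_image_le
  obtain ⟨C0, hC0⟩ : ∃ C0 : Finset V, C0 = Q.image (fun q => q (Fin.last h)) := ⟨_, rfl⟩
  have hC0card : #Q ≤ Cb R h * #C0 := by
    rw [hC0]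
    refine card_le_mul_card_image _ _ ?_
    intro u _
    refine CBase.cnt_le' G (1 + h) R h (by omega) X u _ ?_
    intro p hp
    rw [mem_filter] at hp
    exact ⟨(hQ p hp.1).1, (hQ p hp.1).2.2.1, (hQ p hp.1).2.1, hp.2⟩
  have hCcard : d ^ h ≤ 2 * (E2 * Cb R h) * #(C0 \ Y) := by
    have h1 := le_card_sdiff Y C0
    have h2 : d ≤ d ^ h := Nat.le_self_pow (by omega) d
    have h3 : d ^ h ≤ (E2 * Cb R h) * (#(C0 \ Y) + Fintype.card F) := by
      refine hQcard.trans ?_
      rw [mul_assoc]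
      exact Nat.mul_le_mul_left _ (hC0card.trans (Nat.mul_le_mul_left _ (by omega)))
    have h4 : 2 * ((E2 * Cb R h) * (#(C0 \ Y) + Fintype.card F)) =
        2 * (E2 * Cb R h) * #(C0 \ Y) + 2 * (E2 * Cb R h) * Fintype.card F := by ring
    omega
  have hCW : ∀ u ∈ C0 \ Y, ∀ f, u ∈ W f := by
    intro u hu f
    rw [mem_sdiff, hC0, mem_image] at hu
    obtain ⟨⟨q, hq, rfl⟩, _⟩ := hu
    exact (hQ q hq).2.2.2 f
  obtain ⟨f0⟩ := (inferInstance : Nonempty F)
  have hlh : 1 + h + 1 = h + 2 := by omega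
  obtain ⟨y, hyY, hy⟩ := hkey G d (fun w => (hdeg w).2) (by omega) (b f0 ⟨0, by omega⟩) (C0 \ Y) Y
    hYcard (by
      intro w hw
      have h1 := ((hub f0).rich w (hCW w hw f0) ⟨0, by omega⟩).mono
        (show rk ≤ D + rk by omega)
      rw [hlh] at h1
      exact h1) hCcard sdiff_disjoint
  refine ⟨_, flex_one G (h + 1) (by omega) J (fun f => by have := hJ f; omega) N0 Ne (by omega) z
    hz (C0 \ Y) Y (fun f => by rw [hY]; exact mem_image_of_mem _ (mem_univ f)) y hyY ?_ hy⟩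
  intro u hu f
  refine hub_rich_roots (by omega) J hJ v b W A hub (by omega) (by omega) (by omega) z hz' u
    (hCW u hu) ?_ f
  intro f' he
  rw [mem_sdiff] at hu
  refine hu.2 ?_
  rw [hY, he]
  exact mem_image_of_mem _ (mem_univ f')

end Pool.Agent.Helper14.SP
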