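import Pool.Agent.Helper14.SP2.F.G5

/-!
# One short leg: vertices which can be reached from a set off every small set
-/

set_option autoImplicit false

namespace Pool.Agent.Helper14.SP

open Finset Classical
open Pool.Agent.Helper97.RE (IsPath Rich PP Clean Cb)

/-- `y` can be reached from `C` by `a`-paths off any small set and off `Y` -/
def FlexV {V : Type} (G : SimpleGraph V) (a N : ℕ) (C Y : Finset V) (y : V) : Prop :=
  ∀ Z : Finset V, #Z ≤ N → y ∉ Z → ∃ p : Fin (a + 1) → V, IsPath G p ∧ p 0 ∈ C ∧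
    p (Fin.last a) = y ∧ ∀ i, i ≠ Fin.last a → p i ∉ Z ∪ Y

/-- walks in a bipartite graph with large minimum degree -/
theorem walk {V : Type} (G : SimpleGraph V) (W A : Finset V) (D : ℕ)
    (hW : ∀ w ∈ W, D ≤ #{a ∈ A | G.Adj w a}) (hA : ∀ a ∈ A, D ≤ #{w ∈ W | G.Adj a w}) (n : ℕ) :
    ∀ (y : V) (Z : Finset V), #Z + n + 1 ≤ D → (Even n → y ∈ W) → (¬ Even n → y ∈ A) →
      ∃ p : Fin (n + 1) → V, IsPath G p ∧ p 0 ∈ W ∧ p (Fin.last n) = y ∧
        ∀ i, i ≠ Fin.last n → p i ∉ Z := by
  induction n with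
  | zero =>
    intro y Z _ h0 _
    refine ⟨fun _ => y, Pool.Agent.Helper97.RE.isPath_zero G _, h0 (by simp), rfl, ?_⟩
    intro i hi
    exact absurd (Fin.ext (by have := i.2; simp only [Fin.val_last]; omega)) hi
  | succ n ih =>
    intro y Z hZ h0 h1
    obtain ⟨y', hyy, hy'Z, hW', hA'⟩ : ∃ y', G.Adj y y' ∧ y' ∉ insert y Z ∧
        (Even n → y' ∈ W) ∧ (¬ Even n → y' ∈ A) := by
      by_cases hev : Even n
      · have hyA : y ∈ A := h1 (by rw [Nat.even_add_one, not_not]; exact hev)
        have hc : #(insert y Z) < #{w ∈ W | G.Adj y w} := by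
          have := card_insert_le y Z
          have := hA y hyA
          omega
        obtain ⟨w, hw, hwZ⟩ := exists_mem_notMem_of_card_lt_card hc
        rw [mem_filter] at hw
        exact ⟨w, hw.2, hwZ, fun _ => hw.1, fun h => absurd hev h⟩
      · have hyW : y ∈ W := h0 (by rw [Nat.even_add_one]; exact hev)
        have hc : #(insert y Z) < #{a ∈ A | G.Adj y a} := by
          have := card_insert_le y Z
          have := hW y hyW
          omega
        obtain ⟨w, hw, hwZ⟩ := exists_mem_notMem_of_card_lt_card hc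
        rw [mem_filter] at hw
        exact ⟨w, hw.2, hwZ, fun h => absurd h hev, fun _ => hw.1⟩
    obtain ⟨p, hp, hp0, hpl, hpZ⟩ := ih y' (insert y Z) (by
      have := card_insert_le y Z
      omega) hW' hA'
    have hne : ∀ i, p i ≠ y := by
      intro i
      by_cases hi : i = Fin.last n
      · rw [hi, hpl]
        exact hyy.symm.ne
      · intro he
        exact hpZ i hi (he ▸ mem_insert_self _ _)
    refine ⟨Fin.snoc p y, hp.snoc (by rw [hpl]; exact hyy.symm) hne, ?_, ?_, ?_⟩
    · have : (0 : Fin (n + 1 + 1)) = (0 : Fin (n + 1)).castSucc := rfl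
      rw [this, Fin.snoc_castSucc]
      exact hp0
    · rw [Fin.snoc_last]
    · intro i
      refine Fin.lastCases ?_ (fun i => ?_) i
      · intro h
        exact absurd rfl h
      · intro _
        rw [Fin.snoc_castSucc]
        by_cases hi : i = Fin.last n
        · rw [hi, hpl]
          exact fun h => hy'Z (mem_insert_of_mem h)
        · exact fun h => hpZ i hi (mem_insert_of_mem h)

/-- a set of many vertices which are all rich to one vertex contains centres for a leg which is
shorter by one -/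
theorem key (K h E2 N0 nY : ℕ) (hh : 1 ≤ h) : ∃ r : ℕ,
    ∀ {V : Type} [Fintype V] (G : SimpleGraph V) (d : ℕ), (∀ w, G.degree w ≤ K * d) → 1 ≤ d →
      ∀ (b : V) (C Y : Finset V), #Y ≤ nY → (∀ w ∈ C, Rich G (h + 2) r w b) →
        d ^ h ≤ E2 * #C → Disjoint C Y → ∃ y, y ∉ Y ∧ FlexV G (h + 1) N0 C Y y := by
  obtain ⟨D, hD⟩ : ∃ D, D = N0 + nY + h + 3 := ⟨_, rfl⟩
  obtain ⟨M, hM⟩ : ∃ M, M = N0 * K ^ h * E2 := ⟨_, rfl⟩
  obtain ⟨N1, hN1⟩ : ∃ N1, N1 = 2 * h * M + 1 := ⟨_, rfl⟩
  obtain ⟨r1, hr1⟩ : ∃ r1, r1 = D + (2 * D * M + 1) := ⟨_, rfl⟩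
  refine ⟨r1 + N1 + nY, ?_⟩
  intro V _ G d hdeg hd b C Y hY hrich hC hCY
  by_contra hcon
  push Not at hcon
  -- blocking sets
  have hblock : ∀ y : V, ∃ Z : Finset V, #Z ≤ N0 ∧ (y ∉ Y → ∀ p : Fin (h + 1 + 1) → V, IsPath G p →
      p 0 ∈ C → p (Fin.last (h + 1)) = y → ∃ i, i ≠ Fin.last (h + 1) ∧ p i ∈ Z ∪ Y) := by
    intro y
    by_cases hyY : y ∈ Y
    · exact ⟨∅, by simp, fun h => absurd hyY h⟩
    · have h1 := hcon y hyY
      unfold FlexV at h1
      push Not at h1
      obtain ⟨Z, hZ1, _, hZ3⟩ := h1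
      exact ⟨Z, hZ1, fun _ p hp hp0 hpl => hZ3 p hp hp0 hpl⟩
  choose Zf hZf1 hZf2 using hblock
  obtain ⟨S1, hS1⟩ : ∃ S1 : Finset V, S1 = (G.neighborFinset b).biUnion Zf := ⟨_, rfl⟩
  have hS1card : #S1 ≤ (K * d) * N0 := by
    rw [hS1]
    refine card_biUnion_le.trans ?_
    refine (sum_le_card_nsmul _ _ N0 fun y _ => hZf1 y).trans ?_
    rw [smul_eq_mul, SimpleGraph.card_neighborFinset_eq_degree]
    exact Nat.mul_le_mul_right _ (hdeg b)
  obtain ⟨h', rfl⟩ : ∃ h', h = h' + 1 := ⟨h - 1, by omega⟩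
  obtain ⟨P1, hP1⟩ : ∃ P1 : Finset V, P1 =
      ((PP G h').filter fun p => p (Fin.last h') ∈ S1).image (fun p => p 0) := ⟨_, rfl⟩
  have hP1card : #P1 ≤ N0 * (K * d) ^ (h' + 1) := by
    rw [hP1]
    refine card_image_le.trans ((CBase.card_paths_end G (K * d) hdeg h' S1).trans ?_)
    calc #S1 * (K * d) ^ h' ≤ (K * d * N0) * (K * d) ^ h' := Nat.mul_le_mul_right _ hS1card
      _ = N0 * (K * d) ^ (h' + 1) := by ring
  -- the bad `y`
  obtain ⟨Bl, hBl⟩ : ∃ Bl : V → Finset V, Bl = fun y => (range (h' + 1)).biUnion fun m =>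
      ((PP G m).filter fun p => p (Fin.last m) ∈ Zf y).image (fun p => p 0) := ⟨_, rfl⟩
  have hBlcard : ∀ y, #(Bl y) ≤ (h' + 1) * (N0 * (K * d) ^ h') := by
    intro y
    rw [hBl]
    refine card_biUnion_le.trans ?_
    have h1 : ∀ m ∈ range (h' + 1), #(((PP G m).filter fun p => p (Fin.last m) ∈ Zf y).image
        (fun p => p 0)) ≤ N0 * (K * d) ^ h' := by
      intro m hm
      rw [mem_range] at hm
      refine card_image_le.trans ((CBase.card_paths_end G (K * d) hdeg m (Zf y)).trans ?_)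
      refine Nat.mul_le_mul (hZf1 y) ?_
      rcases Nat.eq_zero_or_pos (K * d) with h0 | h0
      · -- then there is no edge
        rw [h0]
        rcases Nat.eq_zero_or_pos m with hm0 | hm0
        · subst hm0
          exfalso
          -- `C` is nonempty and its elements have neighbours
          have hCne : C.Nonempty := by
            rw [← card_pos]
            rcases Nat.eq_zero_or_pos #C with h2 | h2
            · rw [h2, mul_zero] at hC
              have := Nat.one_le_pow (h' + 1) d hd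
              omega
            · exact h2
          obtain ⟨w, hw⟩ := hCne
          obtain ⟨p, hp, hp0, _, _⟩ := hrich w hw ∅ (by simp)
          have h3 := hp.adj 0 (by omega)
          have h4 : 0 < G.degree (p ⟨0, by omega⟩) := by
            rw [SimpleGraph.degree_pos_iff_exists_adj]
            exact ⟨_, h3⟩
          have h5 := hdeg (p ⟨0, by omega⟩)
          omega
        · rw [zero_pow (by omega)]
          exact Nat.zero_le _
      · exact Nat.pow_le_pow_right h0 (by omega)
    refine (sum_le_card_nsmul _ _ _ h1).trans ?_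
    rw [smul_eq_mul, card_range]
  -- the dichotomy
  have hdich : ∀ w ∈ C, r1 ≤ #{a ∈ P1 | G.Adj w a} ∨
      N1 ≤ #{y ∈ G.neighborFinset b | w ∈ Bl y} := by
    intro w hw
    by_contra hno
    push Not at hno
    obtain ⟨hn1, hn2⟩ := hno
    obtain ⟨p, hp, hp0, hpl, hpi⟩ := hrich w hw
      (({a ∈ P1 | G.Adj w a} ∪ {y ∈ G.neighborFinset b | w ∈ Bl y}) ∪ Y) (by
        have h1 := card_union_le ({a ∈ P1 | G.Adj w a} ∪ {y ∈ G.neighborFinset b | w ∈ Bl y}) Y
        have h2 := card_union_le {a ∈ P1 | G.Adj w a} {y ∈ G.neighborFinset b | w ∈ Bl y}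
        omega)
    have hin : ∀ i (hi : i < h' + 1 + 2 + 1), 1 ≤ i → i < h' + 1 + 2 → p ⟨i, hi⟩ ∉
        (({a ∈ P1 | G.Adj w a} ∪ {y ∈ G.neighborFinset b | w ∈ Bl y}) ∪ Y) := by
      intro i hi h1 h2
      refine hpi _ ?_ ?_
      · intro he
        have := congrArg Fin.val he
        simp only [Fin.val_zero] at this
        omega
      · intro he
        have := congrArg Fin.val he
        simp only [Fin.val_last] at this
        omega
    have hyin := hin (h' + 1 + 1) (by omega) (by omega) (by omega)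
    have hyY : p ⟨h' + 1 + 1, by omega⟩ ∉ Y := fun h => hyin (mem_union_right _ h)
    have hq : IsPath G (Pool.Agent.Helper97.RE.win p 0 (h' + 1 + 1) (by omega)) := hp.win _ _ _
    obtain ⟨i, hi1, hi2⟩ := hZf2 _ hyY _ hq (by
      rw [Pool.Agent.Helper97.RE.win_zero]
      change p 0 ∈ C
      rw [hp0]
      exact hw) (by
      rw [Pool.Agent.Helper97.RE.win_last]
      congr 1
      exact Fin.ext (by simp))
    have hi3 : (i : ℕ) < h' + 1 + 1 := by
      have h1 := i.2
      have h2 : (i : ℕ) ≠ h' + 1 + 1 := by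
        intro h3
        exact hi1 (Fin.ext (by simp only [Fin.val_last]; exact h3))
      omega
    have hwi : Pool.Agent.Helper97.RE.win p 0 (h' + 1 + 1) (by omega) i = p ⟨i, by omega⟩ := by
      rw [Pool.Agent.Helper97.RE.win_apply]
      congr 1
      exact Fin.ext (by simp)
    rw [hwi, mem_union] at hi2
    have hiY : p ⟨(i : ℕ), by omega⟩ ∉ Y := by
      rcases Nat.eq_zero_or_pos (i : ℕ) with h0 | h0
      · have : p ⟨(i : ℕ), by omega⟩ = w := by
          rw [← hp0]
          congr 1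
          exact Fin.ext h0
        rw [this]
        exact fun h1 => (disjoint_left.1 hCY hw) h1
      · exact fun h1 => hin i (by omega) h0 (by omega) (mem_union_right _ h1)
    have hiZ := hi2.resolve_right hiY
    rcases Nat.lt_or_ge (i : ℕ) (h' + 1) with hlt | hge
    · -- `w` lies in a ball
      refine hyin (mem_union_left _ (mem_union_right _ ?_))
      rw [mem_filter]
      refine ⟨?_, ?_⟩
      · rw [SimpleGraph.mem_neighborFinset]
        have h1 := hp.adj (h' + 1 + 1) (by omega)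
        have h2 : p ⟨h' + 1 + 1 + 1, by omega⟩ = b := by
          rw [← hpl]
          congr 1
        rw [h2] at h1
        exact h1.symm
      · rw [hBl]
        simp only [mem_biUnion, mem_range, mem_image, mem_filter]
        refine ⟨i, hlt, Pool.Agent.Helper97.RE.win p 0 i (by omega),
          ⟨Pool.Agent.Helper97.RE.mem_PP.2 (hp.win _ _ _), ?_⟩, ?_⟩
        · rw [Pool.Agent.Helper97.RE.win_last]
          convert hiZ using 2
          exact Fin.ext (by simp)
        · rw [Pool.Agent.Helper97.RE.win_zero, ← hp0]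
          rfl
    · -- the second vertex lies in `P1`
      have hieq : (i : ℕ) = h' + 1 := by omega
      refine hin 1 (by omega) le_rfl (by omega) (mem_union_left _ (mem_union_left _ ?_))
      rw [mem_filter]
      refine ⟨?_, ?_⟩
      · rw [hP1, mem_image]
        refine ⟨Pool.Agent.Helper97.RE.win p 1 h' (by omega), ?_, ?_⟩
        · rw [mem_filter]
          refine ⟨Pool.Agent.Helper97.RE.mem_PP.2 (hp.win _ _ _), ?_⟩
          rw [Pool.Agent.Helper97.RE.win_last, hS1, mem_biUnion]
          refine ⟨p ⟨h' + 1 + 1, by omega⟩, ?_, ?_⟩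
          · rw [SimpleGraph.mem_neighborFinset]
            have h1 := hp.adj (h' + 1 + 1) (by omega)
            have h2 : p ⟨h' + 1 + 1 + 1, by omega⟩ = b := by
              rw [← hpl]
              congr 1
            rw [h2] at h1
            exact h1.symm
          · convert hiZ using 2
            exact Fin.ext (by simp only; omega)
        · rw [Pool.Agent.Helper97.RE.win_zero]
      · have h1 := hp.adj 0 (by omega)
        have h2 : p ⟨0, by omega⟩ = w := by
          rw [← hp0]
          rfl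
        rw [h2] at h1
        exact h1
  -- counting
  obtain ⟨C2, hC2⟩ : ∃ C2 : Finset V, C2 = {w ∈ C | N1 ≤ #{y ∈ G.neighborFinset b | w ∈ Bl y}} :=
    ⟨_, rfl⟩
  have hC2card : N1 * #C2 ≤ (h' + 1) * (N0 * (K * d) ^ (h' + 1)) := by
    calc N1 * #C2 = ∑ _w ∈ C2, N1 := by rw [sum_const, smul_eq_mul, mul_comm]
      _ ≤ ∑ w ∈ C2, #{y ∈ G.neighborFinset b | w ∈ Bl y} := by
          refine sum_le_sum fun w hw => ?_
          rw [hC2, mem_filter] at hw
          exact hw.2
      _ = ∑ y ∈ G.neighborFinset b, #{w ∈ C2 | w ∈ Bl y} := by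
          exact sum_card_bipartiteAbove_eq_sum_card_bipartiteBelow _
      _ ≤ ∑ _y ∈ G.neighborFinset b, (h' + 1) * (N0 * (K * d) ^ h') := by
          refine sum_le_sum fun y _ => ?_
          refine (card_le_card ?_).trans (hBlcard y)
          intro w hw
          exact (mem_filter.1 hw).2
      _ ≤ (K * d) * ((h' + 1) * (N0 * (K * d) ^ h')) := by
          rw [sum_const, smul_eq_mul, SimpleGraph.card_neighborFinset_eq_degree]
          exact Nat.mul_le_mul_right _ (hdeg b)
      _ = (h' + 1) * (N0 * (K * d) ^ (h' + 1)) := by ring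
  have hMC : N0 * (K * d) ^ (h' + 1) ≤ M * #C := by
    calc N0 * (K * d) ^ (h' + 1) = N0 * K ^ (h' + 1) * d ^ (h' + 1) := by rw [mul_pow]; ring
      _ ≤ N0 * K ^ (h' + 1) * (E2 * #C) := Nat.mul_le_mul_left _ hC
      _ = M * #C := by rw [hM]; ring
  have hCpos : 0 < #C := by
    rcases Nat.eq_zero_or_pos #C with h2 | h2
    · rw [h2, mul_zero] at hC
      have := Nat.one_le_pow (h' + 1) d hd
      omega
    · exact h2
  have hC2half : 2 * #C2 ≤ #C := by
    by_contra hlt
    push Not at hlt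
    have h1 : N1 * #C2 ≤ (h' + 1) * (M * #C) := hC2card.trans (Nat.mul_le_mul_left _ hMC)
    have h2 : (h' + 1) * (M * #C) ≤ (h' + 1) * M * (2 * #C2) := by
      rw [← mul_assoc]
      exact Nat.mul_le_mul_left _ hlt.le
    have h3 : N1 * #C2 = (h' + 1) * M * (2 * #C2) + #C2 := by
      rw [hN1]; ring
    omega
  obtain ⟨C1, hC1⟩ : ∃ C1 : Finset V, C1 = C \ C2 := ⟨_, rfl⟩
  have hC2C : C2 ⊆ C := by
    rw [hC2]
    exact filter_subset _ _
  have hC1card : #C ≤ 2 * #C1 := by
    rw [hC1, card_sdiff_of_subset hC2C]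
    omega
  have hC1deg : ∀ w ∈ C1, r1 ≤ #{a ∈ P1 | G.Adj w a} := by
    intro w hw
    rw [hC1, mem_sdiff] at hw
    rcases hdich w hw.1 with h1 | h1
    · exact h1
    · exfalso
      apply hw.2
      rw [hC2, mem_filter]
      exact ⟨hw.1, h1⟩
  obtain ⟨W, hWC1, A, hAP1, hdW, hdA, hprune⟩ := prune G C1 P1 D r1 (by omega) hC1deg
  have hWne : W.Nonempty := by
    by_contra hW0
    rw [not_nonempty_iff_eq_empty] at hW0
    subst hW0
    rw [sdiff_empty] at hprune
    have h1 : r1 - D = 2 * D * M + 1 := by omega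
    rw [h1] at hprune
    have h2 : D * #P1 ≤ D * (M * (2 * #C1)) :=
      Nat.mul_le_mul_left _ (hP1card.trans (hMC.trans (Nat.mul_le_mul_left _ hC1card)))
    have h3 : (2 * D * M + 1) * #C1 = D * (M * (2 * #C1)) + #C1 := by ring
    omega
  obtain ⟨w0, hw0⟩ := hWne
  have hWC : ∀ w ∈ W, w ∈ C := by
    intro w hw
    have := hWC1 hw
    rw [hC1, mem_sdiff] at this
    exact this.1
  obtain ⟨y, hyY, hyW, hyA⟩ : ∃ y, y ∉ Y ∧ (Even (h' + 1 + 1) → y ∈ W) ∧
      (¬ Even (h' + 1 + 1) → y ∈ A) := by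
    by_cases hev : Even (h' + 1 + 1)
    · exact ⟨w0, fun h1 => disjoint_left.1 hCY (hWC w0 hw0) h1, fun _ => hw0,
        fun h1 => absurd hev h1⟩
    · have h1 : #Y < #{a ∈ A | G.Adj w0 a} := by
        have := hdW w0 hw0
        omega
      obtain ⟨y, hy, hyY⟩ := exists_mem_notMem_of_card_lt_card h1
      exact ⟨y, hyY, fun h1 => absurd h1 hev, fun _ => (mem_filter.1 hy).1⟩
  refine hcon y hyY ?_
  intro Z hZ _
  obtain ⟨p, hp, hp0, hpl, hpi⟩ := walk G W A D hdW hdA (h' + 1 + 1) y (Z ∪ Y) (by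
    have := card_union_le Z Y
    omega) hyW hyA
  exact ⟨p, hp, hWC _ hp0, hpl, hpi⟩

end Pool.Agent.Helper14.SP
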